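import Pool.Agent.Run7.h106.AG.Asm
import Pool.Agent.Run7.h106.AW.Ang5

/-!
# Systems of local moves: functionals with a product structure along the slots
-/

set_option autoImplicit false
set_option linter.unusedVariables false

namespace Run7.h106.AX

open Finset Filter Topology
open Pool.Agent.N929.EG
open Pool.Agent.N929.AC (Om xx cs aa Co)
open Pool.Agent.N562.AC (mem_Co)
open Pool.Agent.N738.AC (sum_pp avg_le consts)
open Run7.h106.AG
open scoped Classical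

noncomputable section

variable {α σ : Type} {Y : TS α σ}

/-- a move at the place `q` multiplies the functional by `s q` -/
def Mu (Y : TS α σ) (F : α → ℝ) (s : σ → ℝ) : Prop :=
  (∀ q, 1 / 2 ≤ s q ∧ s q ≤ 2) ∧ ∀ n, ∀ w ∈ Y.K n, ∀ q ∈ Y.S w, F (Y.ins w q) = F w * s q

variable {L : Finset σ} {st : α → α} {fl : α → Finset σ → α} {N : ℕ}

theorem fl_mul (h : Fill Y L st fl) {F : α → ℝ} {s : σ → ℝ} (hF : Mu Y F s) {w : α}
    (hw : Em Y L w) : ∀ U : Finset σ, U ⊆ Sl Y L w → F (fl w U) = F w * ∏ q ∈ U, s q := by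
  intro U
  induction U using Finset.induction_on with
  | empty =>
    intro _
    rw [h.fl_empty w hw, prod_empty, mul_one]
  | insert q U hq ih =>
    intro hU
    have h1 : U ⊆ Sl Y L w := fun x hx => hU (mem_insert_of_mem hx)
    have h2 : q ∈ Sl Y L w := hU (mem_insert_self q U)
    obtain ⟨h3, h4⟩ := h.fl_insert w U q hw h1 h2 hq
    rw [h4, hF.2 _ _ (h.fl_K w U hw h1) q h3, ih h1, prod_insert hq]
    ring

/-- the bound outside the disc -/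
theorem bnd4 (h : Fill Y L st fl) (hY : Y.s = 2) {F : α → ℝ} {s : σ → ℝ} {C₀ ρ : ℝ}
    (hC₀ : 0 ≤ C₀) (hρ : 0 ≤ ρ) (hF : ∀ n, ∀ w ∈ Y.K n, 0 ≤ F w ∧ F w ≤ C₀ * ρ ^ n)
    (hm : Mu Y F s) (z : ℂ) (x : ℝ) (hx : 0 ≤ x)
    (hs : Summable (fun n => aa Y F n * x ^ n)) (c₀ δ : ℝ) (hc₀ : 0 < c₀) (hδ : 0 ≤ δ)
    (h1 : ‖z‖ ≤ x * Real.exp (c₀ * δ))
    (h2 : ∀ s : ℝ, 1 / 2 ≤ s → s ≤ 2 →
      ‖1 + (s : ℂ) * z ^ 2‖ ≤ (1 + s * x ^ 2) * Real.exp (-δ)) :
    ‖PG Y fl F L N z‖ ≤ (∑' n, aa Y F n * x ^ n) +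
      ∑ m ∈ range (N + 1), (((Y.K m).filter
        (fun w => ((Sl Y L w).card : ℝ) < c₀ * m)).card : ℝ) *
        (C₀ * (ρ * (‖z‖ * (1 + 2 * ‖z‖ ^ 2) ^ c₀)) ^ m) := by
  obtain ⟨B, hB⟩ : ∃ B : ℝ, B = ρ * (‖z‖ * (1 + 2 * ‖z‖ ^ 2) ^ c₀) := ⟨_, rfl⟩
  rw [← hB]
  have hB0 : 0 ≤ B := by rw [hB]; positivity
  have hCo : ∀ w ∈ Co Y L N, w ∈ Y.K (Y.len w) ∧ Y.len w ≤ N := fun w hw =>
    ⟨(mem_Co.1 hw).1.1, (mem_Co.1 hw).2⟩
  have hterm : ∀ w ∈ Co Y L N, ‖∑ U ∈ (Sl Y L w).powerset,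
      (F (fl w U) : ℂ) * z ^ (Y.len w + Y.s * U.card)‖ ≤
      (∑ U ∈ (Sl Y L w).powerset, F (fl w U) * x ^ Y.len (fl w U)) +
      (if ((Sl Y L w).card : ℝ) < c₀ * Y.len w then C₀ * B ^ Y.len w else 0) := by
    intro w hw
    have hwE := (mem_Co.1 hw).1
    have hF1 := hF _ w hwE.1
    have e5 : ∑ U ∈ (Sl Y L w).powerset, (F (fl w U) : ℂ) * z ^ (Y.len w + Y.s * U.card) =
        z ^ Y.len w * ((F w : ℂ) * ∏ q ∈ Sl Y L w, (1 + (s q : ℂ) * z ^ 2)) := by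
      rw [Finset.prod_one_add, mul_sum, mul_sum]
      refine sum_congr rfl fun U hU => ?_
      rw [fl_mul h hm hwE U (mem_powerset.1 hU), hY, Finset.prod_mul_distrib, Finset.prod_const,
        pow_add, pow_mul]
      push_cast
      ring
    have e6 : ∑ U ∈ (Sl Y L w).powerset, F (fl w U) * x ^ Y.len (fl w U) =
        x ^ Y.len w * (F w * ∏ q ∈ Sl Y L w, (1 + s q * x ^ 2)) := by
      rw [Finset.prod_one_add, mul_sum, mul_sum]
      refine sum_congr rfl fun U hU => ?_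
      rw [mem_powerset] at hU
      rw [fl_len h hwE hU, fl_mul h hm hwE U hU, hY, Finset.prod_mul_distrib, Finset.prod_const,
        pow_add, pow_mul]
      ring
    have hx1 : 0 ≤ x ^ Y.len w * (F w * ∏ q ∈ Sl Y L w, (1 + s q * x ^ 2)) := by
      refine mul_nonneg (by positivity) (mul_nonneg hF1.1 (Finset.prod_nonneg fun q _ => ?_))
      have := (hm.1 q).1
      positivity
    rw [e5, e6, norm_mul, norm_pow, norm_mul, Complex.norm_real, Real.norm_of_nonneg hF1.1,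
      norm_prod]
    obtain ⟨l, hl⟩ : ∃ l, l = Y.len w := ⟨_, rfl⟩
    obtain ⟨k, hk⟩ : ∃ k, k = (Sl Y L w).card := ⟨_, rfl⟩
    rw [← hl] at hF1 hx1 ⊢
    rw [← hk]
    split_ifs with hlt
    · have hbase : 1 ≤ 1 + 2 * ‖z‖ ^ 2 := by
        have : 0 ≤ ‖z‖ ^ 2 := by positivity
        linarith
      have e0 : ∏ q ∈ Sl Y L w, ‖1 + (s q : ℂ) * z ^ 2‖ ≤ (1 + 2 * ‖z‖ ^ 2) ^ k := by
        rw [hk, ← Finset.prod_const]
        refine Finset.prod_le_prod (fun q _ => norm_nonneg _) fun q _ => ?_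
        refine (norm_add_le _ _).trans ?_
        have h3 := hm.1 q
        rw [norm_one, norm_mul, norm_pow, Complex.norm_real, Real.norm_of_nonneg (by linarith)]
        have : 0 ≤ ‖z‖ ^ 2 := by positivity
        nlinarith
      have e2 : (1 + 2 * ‖z‖ ^ 2) ^ k ≤ ((1 + 2 * ‖z‖ ^ 2) ^ c₀) ^ l := by
        calc (1 + 2 * ‖z‖ ^ 2) ^ k = (1 + 2 * ‖z‖ ^ 2) ^ (k : ℝ) := (Real.rpow_natCast _ _).symm
          _ ≤ (1 + 2 * ‖z‖ ^ 2) ^ (c₀ * l) := Real.rpow_le_rpow_of_exponent_le hbase hlt.le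
          _ = ((1 + 2 * ‖z‖ ^ 2) ^ c₀) ^ l := by
              rw [Real.rpow_mul (by linarith), Real.rpow_natCast]
      have e3 : ‖z‖ ^ l * (F w * ∏ q ∈ Sl Y L w, ‖1 + (s q : ℂ) * z ^ 2‖) ≤ C₀ * B ^ l := by
        calc ‖z‖ ^ l * (F w * ∏ q ∈ Sl Y L w, ‖1 + (s q : ℂ) * z ^ 2‖)
            ≤ ‖z‖ ^ l * ((C₀ * ρ ^ l) * ((1 + 2 * ‖z‖ ^ 2) ^ c₀) ^ l) := by
              refine mul_le_mul_of_nonneg_left (mul_le_mul hF1.2 (e0.trans e2)
                (Finset.prod_nonneg fun q _ => norm_nonneg _) (by positivity)) (by positivity)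
          _ = C₀ * B ^ l := by
              rw [hB, mul_pow ρ, mul_pow ‖z‖]
              ring
      linarith
    · have hge : c₀ * l ≤ k := not_lt.1 hlt
      rw [add_zero]
      have e0 : F w * ∏ q ∈ Sl Y L w, ‖1 + (s q : ℂ) * z ^ 2‖ ≤
          F w * ((∏ q ∈ Sl Y L w, (1 + s q * x ^ 2)) * Real.exp (-δ) ^ k) := by
        refine mul_le_mul_of_nonneg_left ?_ hF1.1
        rw [hk, ← Finset.prod_const, ← Finset.prod_mul_distrib]
        exact Finset.prod_le_prod (fun q _ => norm_nonneg _)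
          (fun q _ => h2 (s q) (hm.1 q).1 (hm.1 q).2)
      have e1 : ‖z‖ ^ l ≤ (x * Real.exp (c₀ * δ)) ^ l := pow_le_pow_left₀ (norm_nonneg _) h1 _
      have e4 : Real.exp (c₀ * δ) ^ l * Real.exp (-δ) ^ k ≤ 1 := by
        rw [← Real.exp_nat_mul, ← Real.exp_nat_mul, ← Real.exp_add]
        rw [Real.exp_le_one_iff]
        have : c₀ * l * δ ≤ k * δ := mul_le_mul_of_nonneg_right hge hδ
        linarith
      calc ‖z‖ ^ l * (F w * ∏ q ∈ Sl Y L w, ‖1 + (s q : ℂ) * z ^ 2‖)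
          ≤ (x * Real.exp (c₀ * δ)) ^ l *
            (F w * ((∏ q ∈ Sl Y L w, (1 + s q * x ^ 2)) * Real.exp (-δ) ^ k)) :=
            mul_le_mul e1 e0 (mul_nonneg hF1.1 (Finset.prod_nonneg fun q _ => norm_nonneg _))
              (by positivity)
        _ = x ^ l * (F w * ∏ q ∈ Sl Y L w, (1 + s q * x ^ 2)) *
            (Real.exp (c₀ * δ) ^ l * Real.exp (-δ) ^ k) := by
            rw [mul_pow]; ring
        _ ≤ x ^ l * (F w * ∏ q ∈ Sl Y L w, (1 + s q * x ^ 2)) * 1 :=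
            mul_le_mul_of_nonneg_left e4 hx1
        _ = _ := mul_one _
  have hfirst : ∑ w ∈ Co Y L N, ∑ U ∈ (Sl Y L w).powerset, F (fl w U) * x ^ Y.len (fl w U) ≤
      ∑' n, aa Y F n * x ^ n := by
    rw [← sumTG h (fun v => F v * x ^ Y.len v)]
    have h6 := grp F (fun n w hw => (hF n w hw).1) (aa Y F) (fun _ => le_rfl) (TG Y fl L N) 0
      (fun w hw => ⟨TG_mem h hw, Nat.zero_le _⟩) x hx hs
    simpa only [Nat.add_zero] using h6
  have hsec : ∑ w ∈ Co Y L N,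
      (if ((Sl Y L w).card : ℝ) < c₀ * Y.len w then C₀ * B ^ Y.len w else 0) ≤
      ∑ m ∈ range (N + 1), (((Y.K m).filter
        (fun w => ((Sl Y L w).card : ℝ) < c₀ * m)).card : ℝ) * (C₀ * B ^ m) := by
    rw [← Finset.sum_filter]
    have hdisj : Set.PairwiseDisjoint (↑(range (N + 1)) : Set ℕ) (fun m => (Y.K m).filter
        (fun w => ((Sl Y L w).card : ℝ) < c₀ * m)) := by
      intro m _ m' _ hne
      rw [Function.onFun, Finset.disjoint_left]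
      intro w hw hw'
      rw [Finset.mem_filter] at hw hw'
      exact hne ((Y.len_K _ _ hw.1).symm.trans (Y.len_K _ _ hw'.1))
    have hinner : ∑ m ∈ range (N + 1), (((Y.K m).filter
        (fun w => ((Sl Y L w).card : ℝ) < c₀ * m)).card : ℝ) * (C₀ * B ^ m) =
        ∑ w ∈ (range (N + 1)).biUnion (fun m => (Y.K m).filter
        (fun w => ((Sl Y L w).card : ℝ) < c₀ * m)), C₀ * B ^ Y.len w := by
      rw [Finset.sum_biUnion hdisj]
      refine Finset.sum_congr rfl (fun m _ => ?_)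
      rw [← nsmul_eq_mul, ← sum_const]
      refine Finset.sum_congr rfl (fun w hw => ?_)
      rw [Y.len_K _ _ (Finset.mem_filter.1 hw).1]
    rw [hinner]
    refine Finset.sum_le_sum_of_subset_of_nonneg ?_ ?_
    · intro w hw
      rw [Finset.mem_filter] at hw
      obtain ⟨hw1, hw2⟩ := hCo w hw.1
      rw [Finset.mem_biUnion]
      exact ⟨Y.len w, Finset.mem_range.2 (by omega), Finset.mem_filter.2 ⟨hw1, hw.2⟩⟩
    · intro w hw _
      positivity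
  unfold PG
  calc ‖∑ w ∈ Co Y L N, ∑ U ∈ (Sl Y L w).powerset,
        (F (fl w U) : ℂ) * z ^ (Y.len w + Y.s * U.card)‖
      ≤ ∑ w ∈ Co Y L N, ‖∑ U ∈ (Sl Y L w).powerset,
        (F (fl w U) : ℂ) * z ^ (Y.len w + Y.s * U.card)‖ := norm_sum_le _ _
    _ ≤ ∑ w ∈ Co Y L N, ((∑ U ∈ (Sl Y L w).powerset, F (fl w U) * x ^ Y.len (fl w U)) +
      (if ((Sl Y L w).card : ℝ) < c₀ * Y.len w then C₀ * B ^ Y.len w else 0)) :=
        Finset.sum_le_sum hterm
    _ = ∑ w ∈ Co Y L N, ∑ U ∈ (Sl Y L w).powerset, F (fl w U) * x ^ Y.len (fl w U) +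
      ∑ w ∈ Co Y L N, (if ((Sl Y L w).card : ℝ) < c₀ * Y.len w then
        C₀ * B ^ Y.len w else 0) := Finset.sum_add_distrib
    _ ≤ _ := add_le_add hfirst hsec

end

end Run7.h106.AX
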