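import Pool.Agent.Run7.h106.AH.Fek

/-!
# Walks weighted by their steps: submultiplicativity
-/

set_option autoImplicit false
set_option linter.unusedVariables false

namespace Run7.h106.AX

open Filter Topology Finset Run7.h106.AH

noncomputable section

variable {d : ℕ}

/-- the weight of a walk: the product of the weights of its steps -/
def pw (a : (Fin d → ℤ) → ℝ) {n : ℕ} (ω : Fin (n + 1) → Fin d → ℤ) : ℝ :=
  ∏ i : Fin n, a (ω i.succ - ω i.castSucc)

/-- the weighted number of walks -/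
def ZW (d : ℕ) (a : (Fin d → ℤ) → ℝ) (n : ℕ) : ℝ := ∑ᶠ ω ∈ {ω | IsW d n ω}, pw a ω

theorem ZW_eq (a : (Fin d → ℤ) → ℝ) (n : ℕ) :
    ZW d a n = ∑ ω ∈ (fin_W d n).toFinset, pw a ω :=
  finsum_mem_eq_finite_toFinset_sum _ _

theorem pw_cut (a : (Fin d → ℤ) → ℝ) {m n : ℕ} (ω : Fin (m + n + 1) → Fin d → ℤ) :
    pw a ω = pw a (cut d m n ω).1 * pw a (cut d m n ω).2 := by
  unfold pw
  rw [Fin.prod_univ_add]
  congr 1
  refine prod_congr rfl fun i _ => ?_
  congr 1
  show ω ⟨m + (i.1 + 1), _⟩ - ω ⟨m + i.1, _⟩ =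
    (ω ⟨m + (i.1 + 1), _⟩ - ω ⟨m, _⟩) - (ω ⟨m + i.1, _⟩ - ω ⟨m, _⟩)
  rw [sub_sub_sub_cancel_right]

theorem pw_bd {a : (Fin d → ℤ) → ℝ} {b : ℝ}
    (ha : ∀ x : Fin d → ℤ, ∑ j, |x j| = 1 → Real.exp (-b) ≤ a x ∧ a x ≤ Real.exp b) {n : ℕ}
    {ω : Fin (n + 1) → Fin d → ℤ} (h : IsW d n ω) :
    Real.exp (-b) ^ n ≤ pw a ω ∧ pw a ω ≤ Real.exp b ^ n := by
  have h1 : ∀ i : Fin n, Real.exp (-b) ≤ a (ω i.succ - ω i.castSucc) ∧
      a (ω i.succ - ω i.castSucc) ≤ Real.exp b := fun i => ha _ (h.2.1 i)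
  have e : ∀ r : ℝ, r ^ n = ∏ _i : Fin n, r := fun r => by simp
  unfold pw
  rw [e, e]
  exact ⟨prod_le_prod (fun i _ => (Real.exp_pos _).le) fun i _ => (h1 i).1,
    prod_le_prod (fun i _ => (Real.exp_pos _).le.trans (h1 i).1) fun i _ => (h1 i).2⟩

theorem ZW_sub {a : (Fin d → ℤ) → ℝ} {b : ℝ}
    (ha : ∀ x : Fin d → ℤ, ∑ j, |x j| = 1 → Real.exp (-b) ≤ a x ∧ a x ≤ Real.exp b) (m n : ℕ) :
    ZW d a (m + n) ≤ ZW d a m * ZW d a n := by
  classical
  rw [ZW_eq, ZW_eq, ZW_eq, sum_mul_sum, ← sum_product']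
  calc ∑ ω ∈ (fin_W d (m + n)).toFinset, pw a ω
      = ∑ x ∈ ((fin_W d (m + n)).toFinset).image (cut d m n), pw a x.1 * pw a x.2 := by
        rw [sum_image fun ω _ ω' _ e => cut_inj d m n e]
        exact sum_congr rfl fun ω _ => pw_cut a ω
    _ ≤ _ := by
        refine sum_le_sum_of_subset_of_nonneg (fun x hx => ?_) fun x hx _ => ?_
        · rw [mem_image] at hx
          obtain ⟨ω, hω, rfl⟩ := hx
          rw [Set.Finite.mem_toFinset] at hω
          rw [mem_product, Set.Finite.mem_toFinset, Set.Finite.mem_toFinset]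
          exact cut_mem hω
        · rw [mem_product, Set.Finite.mem_toFinset, Set.Finite.mem_toFinset] at hx
          have h1 := (pw_bd ha hx.1).1
          have h2 := (pw_bd ha hx.2).1
          have h3 : 0 < Real.exp (-b) ^ m := by positivity
          have h4 : 0 < Real.exp (-b) ^ n := by positivity
          exact mul_nonneg (h3.le.trans h1) (h4.le.trans h2)

/-- comparison with the number of walks -/
theorem ZW_cmp {a : (Fin d → ℤ) → ℝ} {b : ℝ}
    (ha : ∀ x : Fin d → ℤ, ∑ j, |x j| = 1 → Real.exp (-b) ≤ a x ∧ a x ≤ Real.exp b) (n : ℕ) :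
    Real.exp (-b) ^ n * ({ω | IsW d n ω}.ncard : ℝ) ≤ ZW d a n ∧
      ZW d a n ≤ Real.exp b ^ n * ({ω | IsW d n ω}.ncard : ℝ) := by
  rw [ZW_eq, Set.ncard_eq_toFinset_card _ (fin_W d n)]
  have h1 : ∀ ω ∈ (fin_W d n).toFinset, Real.exp (-b) ^ n ≤ pw a ω ∧
      pw a ω ≤ Real.exp b ^ n := by
    intro ω hω
    rw [Set.Finite.mem_toFinset] at hω
    exact pw_bd ha hω
  constructor
  · have := card_nsmul_le_sum (fin_W d n).toFinset (fun ω => pw a ω) _
      fun ω hω => (h1 ω hω).1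
    rw [nsmul_eq_mul] at this
    linarith
  · have := sum_le_card_nsmul (fin_W d n).toFinset (fun ω => pw a ω) _
      fun ω hω => (h1 ω hω).2
    rw [nsmul_eq_mul] at this
    linarith

/-- the growth rate -/
theorem fekW {a : (Fin d → ℤ) → ℝ} {b : ℝ}
    (ha : ∀ x : Fin d → ℤ, ∑ j, |x j| = 1 → Real.exp (-b) ≤ a x ∧ a x ≤ Real.exp b) {μ : ℝ}
    (hpos : ∀ n, 0 < {ω | IsW d n ω}.ncard)
    (hlim : Tendsto (fun n : ℕ => ({ω | IsW d n ω}.ncard : ℝ) ^ (1 / (n : ℝ))) atTop (𝓝 μ)) :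
    ∃ ν : ℝ, 0 < ν ∧ Tendsto (fun n : ℕ => ZW d a n ^ (1 / (n : ℝ))) atTop (𝓝 ν) ∧
      μ * Real.exp (-b) ≤ ν ∧ ν ≤ μ * Real.exp b ∧
      ∀ x : ℝ, 0 ≤ x → ν * x < 1 → Summable (fun n => ZW d a n * x ^ n) := by
  have hp : ∀ n, 0 < ZW d a n := fun n => by
    have h1 : (0 : ℝ) < ({ω | IsW d n ω}.ncard : ℝ) := by exact_mod_cast hpos n
    have h2 := (ZW_cmp ha n).1
    have h3 : 0 < Real.exp (-b) ^ n * ({ω | IsW d n ω}.ncard : ℝ) := by positivity
    linarith
  have hsub : Subadditive (fun n => Real.log (ZW d a n)) := by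
    intro m n
    rw [← Real.log_mul (hp m).ne' (hp n).ne']
    exact Real.log_le_log (hp _) (ZW_sub ha m n)
  have hbdd : BddBelow (Set.range fun n : ℕ => Real.log (ZW d a n) / n) := by
    refine ⟨-|b|, ?_⟩
    rintro _ ⟨n, rfl⟩
    rcases Nat.eq_zero_or_pos n with rfl | hn
    · simp
    · have hn' : (0 : ℝ) < n := by exact_mod_cast hn
      show -|b| ≤ Real.log (ZW d a n) / n
      rw [le_div_iff₀ hn']
      have h1 : (1 : ℝ) ≤ ({ω | IsW d n ω}.ncard : ℝ) := by exact_mod_cast hpos n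
      have h2 := (ZW_cmp ha n).1
      have h3 : Real.exp (-b * n) ≤ ZW d a n := by
        have e : Real.exp (-b * n) = Real.exp (-b) ^ n := by
          rw [← Real.exp_nat_mul]
          congr 1
          ring
        rw [e]
        have h4 : 0 < Real.exp (-b) ^ n := by positivity
        nlinarith
      have h4 : -b * n ≤ Real.log (ZW d a n) := by
        rw [Real.le_log_iff_exp_le (hp n)]
        exact h3
      have h5 := le_abs_self b
      nlinarith
  have hT := hsub.tendsto_lim hbdd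
  have hν : Tendsto (fun n : ℕ => ZW d a n ^ (1 / (n : ℝ))) atTop (𝓝 (Real.exp hsub.lim)) := by
    refine ((Real.continuous_exp.tendsto _).comp hT).congr fun n => ?_
    show Real.exp (Real.log (ZW d a n) / n) = _
    rw [Real.rpow_def_of_pos (hp n)]
    congr 1
    ring
  have hroot : ∀ (r : ℝ) (n : ℕ), 0 ≤ r → 1 ≤ n → (r ^ n : ℝ) ^ (1 / (n : ℝ)) = r := by
    intro r n hr hn
    rw [one_div]
    exact Real.pow_rpow_inv_natCast hr (by omega)
  refine ⟨_, Real.exp_pos _, hν, ?_, ?_, ?_⟩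
  · refine le_of_tendsto_of_tendsto (hlim.mul_const (Real.exp (-b))) hν ?_
    filter_upwards [eventually_ge_atTop 1] with n hn
    have h1 := (ZW_cmp ha n).1
    calc ({ω | IsW d n ω}.ncard : ℝ) ^ (1 / (n : ℝ)) * Real.exp (-b)
        = (Real.exp (-b) ^ n * ({ω | IsW d n ω}.ncard : ℝ)) ^ (1 / (n : ℝ)) := by
          rw [Real.mul_rpow (by positivity) (by positivity), hroot _ n (Real.exp_pos _).le hn]
          ring
      _ ≤ _ := Real.rpow_le_rpow (by positivity) h1 (by positivity)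
  · refine le_of_tendsto_of_tendsto hν (hlim.mul_const (Real.exp b)) ?_
    filter_upwards [eventually_ge_atTop 1] with n hn
    have h1 := (ZW_cmp ha n).2
    calc ZW d a n ^ (1 / (n : ℝ))
        ≤ (Real.exp b ^ n * ({ω | IsW d n ω}.ncard : ℝ)) ^ (1 / (n : ℝ)) :=
          Real.rpow_le_rpow (hp n).le h1 (by positivity)
      _ = _ := by
          rw [Real.mul_rpow (by positivity) (by positivity), hroot _ n (Real.exp_pos _).le hn]
          ring
  · intro x hx0 hx
    obtain ⟨ν, hνd⟩ : ∃ ν, ν = Real.exp hsub.lim := ⟨_, rfl⟩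
    rw [← hνd] at hν hx
    have hν0 : 0 < ν := by rw [hνd]; exact Real.exp_pos _
    obtain ⟨r, hr1, hr2⟩ : ∃ r, ν < r ∧ r * x < 1 := by
      rcases hx0.eq_or_lt with rfl | hx0
      · exact ⟨ν + 1, by linarith, by simp⟩
      · have h1 : ν < 1 / x := by rw [lt_div_iff₀ hx0]; exact hx
        obtain ⟨r, h2, h3⟩ := exists_between h1
        exact ⟨r, h2, by rwa [lt_div_iff₀ hx0] at h3⟩
    have hr0 : 0 < r := hν0.trans hr1
    have h1 : ∀ᶠ n : ℕ in atTop, ZW d a n ^ (1 / (n : ℝ)) < r := hν.eventually_lt_const hr1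
    refine (summable_geometric_of_lt_one (by positivity) hr2).of_norm_bounded_eventually_nat ?_
    filter_upwards [h1, eventually_ge_atTop 1] with n hn1 hn2
    rw [Real.norm_of_nonneg (mul_nonneg (hp n).le (by positivity)), mul_pow]
    refine mul_le_mul_of_nonneg_right ?_ (by positivity)
    have h2 := pow_le_pow_left₀ (by have := hp n; positivity) hn1.le n
    have h3 : (ZW d a n ^ (1 / (n : ℝ))) ^ n = ZW d a n := by
      rw [one_div]
      exact Real.rpow_inv_natCast_pow (hp n).le (by omega)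
    rwa [h3] at h2

end

end Run7.h106.AX
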