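import Pool.Agent.Run7.h106.AX.Three
import Pool.Agent.N929.AC.Knot

/-!
# Lattice knots weighted by the directions of their edges
-/

set_option autoImplicit false
set_option linter.unusedVariables false

namespace Run7.h106.AX

open Finset Filter Topology KN Pool.Agent.N929.EG Pool.Agent.N929.AC Pool.Agent.N226.KZ
open TH966.KO (SS mem_SS)
open Pool.Agent.N578.EG (path_inj)
open scoped Classical

noncomputable section

theorem sysQw (Q : List Dir → Prop) (hQ : KClass Q) :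
    ∃ Y : TS (List Z3) (List Z3 × List Z3), SysQ Q Y ∧
    (∀ w q, q ∈ Y.S w → T3 q.1 q.2 ∧ Pair A3 q.1 q.2 ∧ Free q.1 q.2 w) ∧
    (∀ w q, Y.ins w q = rep w q.1 q.2) ∧ ∀ n, ∀ w ∈ Y.K n, Walk 0 A3 w := by
  obtain ⟨X, Z, hX, hs, hT⟩ := Pool.Agent.N953.EG.geo3
  obtain ⟨Y, h1, h2, h3, h4, h5, h6⟩ := s_win Z3 X A3 Z
  have hK : ∀ n w, w ∈ Y.K n ↔ ∃ u ∈ SS n, w = (path u).reverse := by
    intro n w
    rw [h3, hX]
    exact Pool.Agent.N558.EG.wk3 n w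
  have hR : ∀ n w q, w ∈ Y.K n → q ∈ Y.S w → (RQ Q w ↔ RQ Q (Y.ins w q)) := by
    intro n w q hw hq
    have hw' := Y.ins_K n w q hw hq
    have hwk := (h3 n w).1 hw
    rw [h4] at hq
    have hl := last_rep' (U := q.1) (U' := q.2) (Z.pair _ _ hq.1) hwk.2 hq.2
    rw [← h6] at hl
    obtain ⟨u, hu, e1⟩ := (hK n w).1 hw
    obtain ⟨u', hu', e2⟩ := (hK _ _).1 hw'
    have hpos : pos u' = pos u := by
      rw [e2, e1, getLast_path, getLast_path] at hl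
      exact Option.some.inj hl
    obtain ⟨hn, hsaw⟩ := mem_SS.1 hu
    obtain ⟨hn', hsaw'⟩ := mem_SS.1 hu'
    rw [h1, hs] at hn'
    have e3 : (path u').reverse = rep (path u).reverse q.1 q.2 := by
      rw [← e2, ← e1, h6]
    rw [e2, e1, rq_iff, rq_iff]
    refine exists_congr fun d => ?_
    rw [hpos]
    refine and_congr_right fun hc => ?_
    have hpar := even_of_closed (w := d :: u) hc
    rw [List.length_cons] at hpar
    rcases Nat.lt_or_ge n 3 with h | h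
    · have hn1 : n = 1 := by omega
      rw [if_pos (by omega), if_neg (by omega)]
      exact q_sq hQ (sap_cons (by omega) hsaw' (by rw [hpos]; exact hc))
        (by rw [List.length_cons]; omega)
    · rw [if_neg (by omega), if_neg (by omega)]
      rw [hT, e1] at hq
      exact Pool.Agent.N578.EG.kni Q (GEN.inv_of Q hQ) n d u u' hu h hc q.1 q.2 hq.1 hq.2 e3
  refine ⟨res Y (RQ Q) hR, ⟨h1.trans hs, ?_, ?_, ?_⟩, fun w q hq => ?_, h6, fun n w hw => ?_⟩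
  · intro n w
    show w ∈ (Y.K n).filter (RQ Q) ↔ _
    rw [mem_filter, hK]
    constructor
    · rintro ⟨⟨u, hu, e⟩, hr⟩; exact ⟨u, hu, e, hr⟩
    · rintro ⟨u, hu, e, hr⟩; exact ⟨⟨u, hu, e⟩, hr⟩
  · intro n u hu
    show _ ≤ (Y.S (path u).reverse).card
    exact (Pool.Agent.N546.EG.cnt3 n u hu (Y.S (path u).reverse)).1 (fun q => by rw [h4, hT])
  · intro n u hu
    show _ ≤ (Y.B (path u).reverse).card
    exact (Pool.Agent.N546.EG.cnt3 n u hu (Y.B (path u).reverse)).2 (fun q => by rw [h5, hT])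
  · have hq' : q ∈ Y.S w := hq
    rw [h4] at hq'
    exact ⟨by rw [← hT]; exact hq'.1, Z.pair _ _ hq'.1, hq'.2⟩
  · have hw' : w ∈ (Y.K n).filter (RQ Q) := hw
    rw [mem_filter, h3, hX] at hw'
    exact hw'.1.2

/-- the weight of a word -/
def wd (α : Fin 3 → ℝ) (w : List Dir) : ℝ := (w.map (fun d => α (ax d))).prod

/-- the weighted number of closed words of class `Q` -/
def aq (Q : List Dir → Prop) (α : Fin 3 → ℝ) (n : ℕ) : ℝ := ∑ w ∈ KN.K Q n, wd α w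

/-- the weighted number of polygons of class `Q` -/
def pw3 (Q : List Dir → Prop) (α : Fin 3 → ℝ) (n : ℕ) : ℝ := aq Q α n / (2 * n)

/-- the weight of a step -/
def av (α : Fin 3 → ℝ) (p : Z3) : ℝ := if p.1 ≠ 0 then α 0 else if p.2.1 ≠ 0 then α 1 else α 2

theorem av_vec (α : Fin 3 → ℝ) (d : Dir) : av α (vec d) = α (ax d) := by
  cases d <;> simp [av, vec, ax]

theorem mu4 {Y : TS (List Z3) (List Z3 × List Z3)}
    (hS : ∀ w q, q ∈ Y.S w → T3 q.1 q.2 ∧ Pair A3 q.1 q.2 ∧ Free q.1 q.2 w)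
    (hi : ∀ w q, Y.ins w q = rep w q.1 q.2) (hK : ∀ n, ∀ w ∈ Y.K n, Walk 0 A3 w)
    (g : Z3 → ℝ) {a : Z3 → ℝ} {h : ℝ}
    (ha : ∀ d, Real.exp (-h) ≤ a (vec d) ∧ a (vec d) ≤ Real.exp h)
    (hh : Real.exp (2 * h) ≤ 2) : Mu Y (fun w => g (e3 w) * Wl a w) (sq a) := by
  refine ⟨sq_bd ha hh, fun n w hw q hq => ?_⟩
  obtain ⟨h1, h2, h3⟩ := hS w q hq
  have h0 : ∀ d, 0 < a (vec d) := fun d => (Real.exp_pos _).trans_le (ha d).1
  have e0 : e3 (Y.ins w q) = e3 w := by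
    rw [hi]
    unfold e3
    rw [last_rep h2 (hK n w hw) h3]
  have e : Wl a (Y.ins w q) = Wl a w * sq a q := by
    rw [hi]
    obtain ⟨L, R, e1, e2, -, -, -⟩ := rep_all h2 (hK n w hw) h3
    have hq1 : 0 < Wl a q.1 := Wl_pos h0 _ h2.2.2.2.1
    unfold sq
    rw [if_pos h1, e2]
    obtain ⟨⟨p, r, X, X', e3, e4, -, -⟩, -⟩ := h2
    have e5 : Wl a w = Wl a (L ++ [p]) * (Wl a q.1 * Wl a (r :: R)) := by
      rw [e1, e3]
      exact Wl_win a L R X p r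
    have e6 : Wl a (L ++ q.2 ++ R) = Wl a (L ++ [p]) * (Wl a q.2 * Wl a (r :: R)) := by
      rw [e4]
      exact Wl_win a L R X' p r
    rw [e5, e6]
    field_simp
  show g (e3 (Y.ins w q)) * Wl a (Y.ins w q) = g (e3 w) * Wl a w * sq a q
  rw [e0, e]
  ring

variable {Q : List Dir → Prop} {Y : TS (List Z3) (List Z3 × List Z3)}

/-- the functional -/
def FQ (α : Fin 3 → ℝ) (w : List Z3) : ℝ := av α (-e3 w) * Wl (av α) w

theorem FQ_path (α : Fin 3 → ℝ) {u : List Dir} {d : Dir} (h : pos u + vec d = 0) :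
    FQ α (path u).reverse = wd α (d :: u) := by
  unfold FQ wd
  rw [e3_path, Wl_path, List.map_cons, List.prod_cons]
  have e : -pos u = vec d := by
    rw [neg_eq_iff_add_eq_zero]
    exact h
  rw [e, av_vec]
  simp only [av_vec]

theorem sum_eqw (H : SysQ Q Y) (α : Fin 3 → ℝ) {n : ℕ} (hn : 3 ≤ n) :
    aa Y (FQ α) n = aq Q α (n + 1) := by
  unfold aa aq
  symm
  refine sum_bij (fun w _ => (path w.tail).reverse) ?_ ?_ ?_ ?_
  · intro w hw
    obtain ⟨d, u, rfl, hu, hc, hq⟩ := (Pool.Agent.N712.EG.knk Q n w hn).1 hw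
    rw [H.K]
    refine ⟨u, hu, rfl, (rq_iff Q u).2 ⟨d, hc, ?_⟩⟩
    rw [if_neg (by have := (mem_SS.1 hu).1; omega)]
    exact hq
  · intro w hw w' hw' h
    obtain ⟨d, u, rfl, hu, hc, hq⟩ := (Pool.Agent.N712.EG.knk Q n w hn).1 hw
    obtain ⟨d', u', rfl, hu', hc', hq'⟩ := (Pool.Agent.N712.EG.knk Q n w' hn).1 hw'
    have h1 : u = u' := Pool.Agent.N578.EG.path_inj u u' (List.reverse_injective h)
    subst h1
    rw [← hc'] at hc
    rw [KN.vec_inj (add_left_cancel hc)]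
  · intro w hw
    obtain ⟨u, hu, e, hr⟩ := (H.K n w).1 hw
    subst e
    obtain ⟨d, hc, hq⟩ := (rq_iff Q u).1 hr
    rw [if_neg (by have := (mem_SS.1 hu).1; omega)] at hq
    exact ⟨d :: u, (Pool.Agent.N712.EG.knk Q n _ hn).2 ⟨d, u, rfl, hu, hc, hq⟩, rfl⟩
  · intro w hw
    obtain ⟨d, u, rfl, hu, hc, hq⟩ := (Pool.Agent.N712.EG.knk Q n w hn).1 hw
    exact (FQ_path α hc).symm

theorem wd_bd {α : Fin 3 → ℝ} {t : ℝ} (ha : ∀ j, Real.exp (-t) ≤ α j ∧ α j ≤ Real.exp t)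
    (w : List Dir) :
    Real.exp (-t) ^ w.length ≤ wd α w ∧ wd α w ≤ Real.exp t ^ w.length := by
  unfold wd
  induction w with
  | nil => simp
  | cons d w ih =>
    rw [List.map_cons, List.prod_cons, List.length_cons, pow_succ', pow_succ']
    have h1 := Real.exp_pos (-t)
    have h2 : 0 ≤ α (ax d) := h1.le.trans (ha _).1
    have h3 : 0 ≤ (w.map (fun d => α (ax d))).prod := (pow_nonneg h1.le _).trans ih.1
    exact ⟨mul_le_mul (ha _).1 ih.1 (pow_nonneg h1.le _) h2,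
      mul_le_mul (ha _).2 ih.2 h3 (Real.exp_pos _).le⟩

theorem FQ_bd (H : SysQ Q Y) {α : Fin 3 → ℝ} {t : ℝ}
    (ha : ∀ j, Real.exp (-t) ≤ α j ∧ α j ≤ Real.exp t) {n : ℕ} {w : List Z3} (hw : w ∈ Y.K n) :
    0 ≤ FQ α w ∧ FQ α w ≤ Real.exp t ^ (n + 1) := by
  obtain ⟨u, hu, e, hr⟩ := (H.K n w).1 hw
  subst e
  obtain ⟨d, hc, hq⟩ := (rq_iff Q u).1 hr
  have hl := (mem_SS.1 hu).1
  obtain ⟨h1, h2⟩ := wd_bd ha (d :: u)
  rw [FQ_path α hc]
  rw [List.length_cons, hl] at h1 h2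
  exact ⟨(pow_nonneg (Real.exp_pos _).le _).trans h1, h2⟩

theorem aq_nonneg {α : Fin 3 → ℝ} {t : ℝ} (ha : ∀ j, Real.exp (-t) ≤ α j ∧ α j ≤ Real.exp t)
    (n : ℕ) : 0 ≤ aq Q α n :=
  sum_nonneg fun w _ => (pow_nonneg (Real.exp_pos _).le _).trans (wd_bd ha w).1

theorem pw3_nonneg {α : Fin 3 → ℝ} {t : ℝ} (ha : ∀ j, Real.exp (-t) ≤ α j ∧ α j ≤ Real.exp t)
    (n : ℕ) : 0 ≤ pw3 Q α n := by
  unfold pw3
  have := aq_nonneg (Q := Q) ha n
  positivity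

theorem aq_small (α : Fin 3 → ℝ) {n : ℕ} (hn : n < 4) : aq Q α n = 0 := by
  unfold aq
  refine sum_eq_zero fun w hw => ?_
  obtain ⟨h1, h2, -⟩ := KN.mem_K.1 hw
  have := h2.1
  omega

theorem knotw (hQ : KClass Q) (hne : ∃ w, SAP w ∧ Q w) :
    ∃ κ : ℝ, 1 < κ ∧ κ ≤ 2 ∧ ∃ c : ℝ, 0 < c ∧ c ≤ 1 / 4 ∧ ∃ C : ℝ, 0 < C ∧
    ∀ ν : ℝ, 1 ≤ ν → gr Q ≤ κ * ν → ν ≤ κ * gr Q → ∀ t : ℝ, 0 ≤ t → Real.exp (2 * t) ≤ κ →
      ∀ α : Fin 3 → ℝ, (∀ j, Real.exp (-t) ≤ α j ∧ α j ≤ Real.exp t) →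
      (∀ x : ℝ, 0 ≤ x → ν * x < 1 → Summable (fun n => pw3 Q α n * x ^ n)) →
      ∃ F : ℂ → ℂ, DifferentiableOn ℂ F (Om c ν 2) ∧
        (∀ z : ℂ, ν * ‖z‖ < 1 → HasSum (fun n => (pw3 Q α n : ℂ) * z ^ n) (F z)) ∧
        ∀ z ∈ Om c ν 2, z ≠ 0 → cs 2 z < 1 →
          ‖deriv F z‖ ≤ C + ‖deriv F (xx c ν 2 z : ℂ)‖ := by
  obtain ⟨Y, H, hS, hi, hK⟩ := sysQw Q hQ
  obtain ⟨φ, R, hφ⟩ := exists_rate hQ hne
  obtain ⟨K₁, hK₁, G⟩ := gr_sys hQ hne H R hφ
  obtain ⟨κ, hκ1, hκ2, c, hc, hc4, h⟩ := acM Y H.s G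
  obtain ⟨C, hC, h'⟩ := h 2 (by norm_num)
  obtain ⟨D, hD⟩ : ∃ D : ℝ, D = ∑ m ∈ range 3, ((Y.K m).card : ℝ) * 2 ^ (m + 1) * 2 ^ m := ⟨_, rfl⟩
  have hD0 : 0 ≤ D := by rw [hD]; positivity
  refine ⟨κ, hκ1, hκ2, c, hc, hc4, C / 2 + D + D, by positivity,
    fun ν hν hν1 hν2 t ht ht2 α ha hsum => ?_⟩
  have hν0 : 0 < ν := by linarith
  have et : Real.exp t ≤ κ := by
    refine le_trans (Real.exp_le_exp.2 ?_) ht2
    linarith
  have hF := fun {n : ℕ} {w : List Z3} (hw : w ∈ Y.K n) => FQ_bd H ha hw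
  have haa : ∀ n, 0 ≤ aa Y (FQ α) n := fun n => sum_nonneg fun w hw => (hF hw).1
  have hu : ∀ n, 3 ≤ n → aa Y (FQ α) n = pw3 Q α (n + 1) * (2 * ((n : ℝ) + 1)) := by
    intro n hn
    rw [sum_eqw H α hn]
    unfold pw3
    have : (0 : ℝ) < (n : ℝ) + 1 := by positivity
    push_cast
    field_simp
  -- summability
  have hsum2 : ∀ x : ℝ, 0 ≤ x → ν * x < 1 → Summable (fun n => aa Y (FQ α) n * x ^ n) := by
    intro x hx0 hx
    obtain ⟨y, hy1, hy2⟩ : ∃ y, x < y ∧ ν * y < 1 := by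
      have h1 : x < 1 / ν := by rw [lt_div_iff₀ hν0, mul_comm]; exact hx
      obtain ⟨y, h2, h3⟩ := exists_between h1
      exact ⟨y, h2, by rwa [lt_div_iff₀ hν0, mul_comm] at h3⟩
    have hy0 : 0 < y := hx0.trans_lt hy1
    have hr0 : 0 ≤ x / y := by positivity
    have hr1 : x / y < 1 := (div_lt_one hy0).2 hy1
    have hs1 := Pool.Agent.N738.AC.sum_pp 1 (x / y) hr0 hr1
    have hB : ∀ n : ℕ, ((n : ℝ) + 1) ^ 1 * (x / y) ^ n ≤
        ∑' m : ℕ, ((m : ℝ) + 1) ^ 1 * (x / y) ^ m := fun n =>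
      hs1.le_tsum n fun m _ => by positivity
    obtain ⟨B, hBd⟩ : ∃ B : ℝ, B = ∑' m : ℕ, ((m : ℝ) + 1) ^ 1 * (x / y) ^ m := ⟨_, rfl⟩
    rw [← hBd] at hB
    have hs2 : Summable (fun n => pw3 Q α (n + 1) * y ^ (n + 1)) :=
      (summable_nat_add_iff (f := fun n => pw3 Q α n * y ^ n) 1).2 (hsum y hy0.le hy2)
    refine (hs2.mul_left (2 * B / y)).of_norm_bounded_eventually_nat ?_
    filter_upwards [eventually_ge_atTop 3] with n hn
    rw [Real.norm_of_nonneg (mul_nonneg (haa n) (by positivity)), hu n hn]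
    have h1 := hB n
    rw [pow_one, div_pow, mul_div_assoc', div_le_iff₀ (by positivity)] at h1
    have h2 := pw3_nonneg (Q := Q) ha (n + 1)
    calc pw3 Q α (n + 1) * (2 * ((n : ℝ) + 1)) * x ^ n
        = 2 * pw3 Q α (n + 1) * (((n : ℝ) + 1) * x ^ n) := by ring
      _ ≤ 2 * pw3 Q α (n + 1) * (B * y ^ n) := mul_le_mul_of_nonneg_left h1 (by positivity)
      _ = 2 * B / y * (pw3 Q α (n + 1) * y ^ (n + 1)) := by
          rw [pow_succ]
          field_simp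
  obtain ⟨f, f1, f2, f3⟩ := h' ν hν hν1 hν2 κ (by linarith) le_rfl (FQ α) (sq (av α))
    (fun n w hw => by
      obtain ⟨b1, b2⟩ := hF hw
      refine ⟨b1, b2.trans ?_⟩
      rw [pow_succ']
      exact mul_le_mul (et.trans hκ2) (pow_le_pow_left₀ (Real.exp_pos _).le et n)
        (by positivity) (by norm_num))
    (mu4 hS hi hK (fun p => av α (-p)) (a := av α) (h := t)
      (fun d => by rw [av_vec]; exact ha _) (ht2.trans hκ2)) hsum2
  obtain ⟨o1, o2, o3, -⟩ := Pool.Agent.N189.AC.omg c ν 2 hc hν (by norm_num)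
  have h0 : (0 : ℂ) ∈ Om c ν 2 := o3 0 (by simp)
  have hball : ∀ z : ℂ, z ∈ Metric.ball (0 : ℂ) (1 / ν) ↔ ν * ‖z‖ < 1 := by
    intro z
    rw [mem_ball_zero_iff, lt_div_iff₀ hν0, mul_comm]
  obtain ⟨P, p1, p2, -, p3⟩ := Pool.Agent.N353.AC.prim (Om c ν 2) (1 / ν)
    (fun n => (aa Y (FQ α) n : ℂ)) f o1
    (fun z hz t ht0 ht1 => om_star hν h0 z hz t ht0 ht1) (by positivity)
    (fun z hz => o3 z ((hball z).1 hz)) f1 (fun z hz => f2 z ((hball z).1 hz))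
  obtain ⟨q, hq⟩ : ∃ q : ℂ → ℂ, q = fun z => ∑ m ∈ range 3,
    (aa Y (FQ α) m : ℂ) / (2 * ((m : ℂ) + 1)) * z ^ (m + 1) := ⟨_, rfl⟩
  obtain ⟨q', hq'⟩ : ∃ q' : ℂ → ℂ, q' = fun z => ∑ m ∈ range 3,
    (aa Y (FQ α) m : ℂ) / 2 * z ^ m := ⟨_, rfl⟩
  have hqd : ∀ z, HasDerivAt q (q' z) z := by
    intro z
    rw [hq, hq']
    refine HasDerivAt.fun_sum fun m _ => ?_
    have h1 := ((hasDerivAt_pow (m + 1) z).const_mul
      ((aa Y (FQ α) m : ℂ) / (2 * ((m : ℂ) + 1))))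
    refine h1.congr_deriv ?_
    have : ((m : ℂ) + 1) ≠ 0 := Nat.cast_add_one_ne_zero m
    push_cast
    field_simp
  have hG : ∀ z ∈ Om c ν 2, HasDerivAt (fun z => P z / 2 - q z) (f z / 2 - q' z) z :=
    fun z hz => ((p2 z hz).div_const 2).sub (hqd z)
  have hq'b : ∀ z : ℂ, ‖z‖ ≤ 2 → ‖q' z‖ ≤ D := by
    intro z hz
    rw [hq', hD]
    refine (norm_sum_le _ _).trans (sum_le_sum fun m hm => ?_)
    rw [norm_mul, norm_pow, norm_div, Complex.norm_real, Real.norm_of_nonneg (haa m)]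
    have h1 : aa Y (FQ α) m ≤ (Y.K m).card * 2 ^ (m + 1) := by
      unfold aa
      have := sum_le_card_nsmul (Y.K m) (FQ α) (2 ^ (m + 1)) fun w hw =>
        (hF hw).2.trans (pow_le_pow_left₀ (Real.exp_pos _).le (et.trans hκ2) _)
      rwa [nsmul_eq_mul] at this
    have h2 : ‖(2 : ℂ)‖ = 2 := by simp
    rw [h2]
    have h3 : aa Y (FQ α) m / 2 ≤ (Y.K m).card * 2 ^ (m + 1) := by linarith [haa m]
    exact mul_le_mul h3 (pow_le_pow_left₀ (norm_nonneg _) hz m) (by positivity) (by positivity)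
  refine ⟨fun z => P z / 2 - q z, fun z hz => (hG z hz).differentiableAt.differentiableWithinAt,
    fun z hz => ?_, fun z hz hz0 hz1 => ?_⟩
  · have g1 := p3 z ((hball z).2 hz)
    have g2 := (g1.div_const 2).sub (hasSum_sum_of_ne_finset_zero
      (f := fun m : ℕ => if m < 3 then
        (aa Y (FQ α) m : ℂ) / (2 * ((m : ℂ) + 1)) * z ^ (m + 1) else 0)
      (s := range 3) (fun m hm => by
        rw [mem_range] at hm
        exact if_neg hm))
    have e1 : ∑ m ∈ range 3, (if m < 3 then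
        (aa Y (FQ α) m : ℂ) / (2 * ((m : ℂ) + 1)) * z ^ (m + 1) else 0) = q z := by
      rw [hq]
      refine sum_congr rfl fun m hm => ?_
      rw [mem_range] at hm
      exact if_pos hm
    rw [e1] at g2
    rw [← hasSum_nat_add_iff' 1]
    simp only [Finset.range_one, Finset.sum_singleton]
    have e2 : (pw3 Q α 0 : ℂ) * z ^ 0 = 0 := by
      unfold pw3
      simp
    rw [e2, sub_zero]
    have e3 : (fun n => (pw3 Q α (n + 1) : ℂ) * z ^ (n + 1)) =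
        fun n => (aa Y (FQ α) n : ℂ) / ((n : ℂ) + 1) * z ^ (n + 1) / 2 -
          (if n < 3 then (aa Y (FQ α) n : ℂ) / (2 * ((n : ℂ) + 1)) * z ^ (n + 1) else 0) := by
      funext n
      have h5 : ((n : ℂ) + 1) ≠ 0 := Nat.cast_add_one_ne_zero n
      split_ifs with h6
      · have h7 : pw3 Q α (n + 1) = 0 := by
          unfold pw3
          rw [aq_small α (by omega)]
          simp
        rw [h7]
        push_cast
        field_simp
        ring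
      · rw [hu n (by omega)]
        push_cast
        field_simp
        ring
    rw [e3]
    exact g2
  · obtain ⟨hs, hb⟩ := f3 z hz hz0 hz1
    obtain ⟨x, hx⟩ : ∃ x, x = xx c ν 2 z := ⟨_, rfl⟩
    rw [← hx] at hs hb ⊢
    have habs := abs_le.1 (Run7.h106.AC.cs_abs 2 z)
    have hxn : ν * x = 1 - c * (1 - cs 2 z) := by
      rw [hx]
      unfold xx
      field_simp
    have hx0 : 0 < x := by
      rw [hx]
      unfold xx
      refine div_pos ?_ hν0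
      nlinarith
    have hx1 : ν * x < 1 := by nlinarith
    have hxO : (x : ℂ) ∈ Om c ν 2 := o3 _ (by
      rw [Complex.norm_real, Real.norm_of_nonneg hx0.le]
      exact hx1)
    have hz2 : ‖z‖ ≤ 2 := by
      have h5 : ν * ‖z‖ < 1 + c * (1 - cs 2 z) := hz
      have h6 : ‖z‖ ≤ ν * ‖z‖ := by nlinarith [norm_nonneg z]
      nlinarith
    have hx2 : ‖(x : ℂ)‖ ≤ 2 := by
      rw [Complex.norm_real, Real.norm_of_nonneg hx0.le]
      nlinarith
    have h4 := f2 (x : ℂ) (by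
      rw [Complex.norm_real, Real.norm_of_nonneg hx0.le]
      exact hx1)
    have h5 : f (x : ℂ) = ((∑' n, aa Y (FQ α) n * x ^ n : ℝ) : ℂ) := by
      rw [← h4.tsum_eq, Complex.ofReal_tsum]
      refine tsum_congr fun n => ?_
      push_cast
      rfl
    have h6 : ‖f (x : ℂ)‖ = ∑' n, aa Y (FQ α) n * x ^ n := by
      rw [h5, Complex.norm_real, Real.norm_of_nonneg]
      exact tsum_nonneg fun n => mul_nonneg (haa n) (pow_nonneg hx0.le n)
    rw [(hG z hz).deriv, (hG _ hxO).deriv]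
    have n1 : ‖f z / 2 - q' z‖ ≤ ‖f z‖ / 2 + D := by
      refine (norm_sub_le _ _).trans (add_le_add (le_of_eq ?_) (hq'b z hz2))
      rw [norm_div]
      simp
    have n2 : ‖f (x : ℂ)‖ / 2 ≤ ‖f (x : ℂ) / 2 - q' x‖ + D := by
      have h7 := norm_add_le (f (x : ℂ) / 2 - q' x) (q' x)
      rw [sub_add_cancel, norm_div] at h7
      have h8 : ‖(2 : ℂ)‖ = 2 := by simp
      rw [h8] at h7
      linarith [hq'b _ hx2]
    rw [← h6] at hb
    linarith

end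

end Run7.h106.AX
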