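import Pool.Agent.Run7.h106.AX.Knot

/-!
# Lattice knots weighted by the directions of their edges: growth rates
-/

set_option autoImplicit false
set_option linter.unusedVariables false

namespace Run7.h106.AX

open Finset Filter Topology KN Pool.Agent.N929.EG Pool.Agent.N929.AC Pool.Agent.N226.KZ
open scoped Classical

noncomputable section

theorem ls_le {u v : ℕ → ℝ} {c : ℝ} (hc : 0 < c) (hu : ∀ j, 0 ≤ u j)
    (hv : IsBoundedUnder (· ≤ ·) atTop v) (h : ∀ᶠ j in atTop, u j ≤ c * v j) :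
    limsup u atTop ≤ c * limsup v atTop := by
  rw [← div_le_iff₀' hc]
  refine le_of_forall_gt_imp_ge_of_dense fun L hL => ?_
  rw [div_le_iff₀' hc]
  have h2 := eventually_lt_of_limsup_lt hL hv
  refine limsup_le_of_le
    (isBoundedUnder_of ⟨0, hu⟩ : IsBoundedUnder (· ≥ ·) atTop u).isCoboundedUnder_le ?_
  filter_upwards [h, h2] with j h3 h4
  exact h3.trans (mul_le_mul_of_nonneg_left h4.le hc.le)

variable {Q : List Dir → Prop} {α : Fin 3 → ℝ} {t : ℝ}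

theorem pw3_bd (ha : ∀ j, Real.exp (-t) ≤ α j ∧ α j ≤ Real.exp t) (n : ℕ) :
    pq Q n ≤ Real.exp t ^ n * pw3 Q α n ∧ pw3 Q α n ≤ Real.exp t ^ n * pq Q n := by
  have h1 : Real.exp (-t) ^ n * (KN.a Q n : ℝ) ≤ aq Q α n := by
    unfold aq KN.a
    have := card_nsmul_le_sum (KN.K Q n) (wd α) (Real.exp (-t) ^ n) fun w hw => by
      have := (wd_bd ha w).1
      rwa [(KN.mem_K.1 hw).1] at this
    rw [nsmul_eq_mul] at this
    linarith
  have h2 : aq Q α n ≤ Real.exp t ^ n * (KN.a Q n : ℝ) := by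
    unfold aq KN.a
    have := sum_le_card_nsmul (KN.K Q n) (wd α) (Real.exp t ^ n) fun w hw => by
      have := (wd_bd ha w).2
      rwa [(KN.mem_K.1 hw).1] at this
    rw [nsmul_eq_mul] at this
    linarith
  have h3 : (KN.a Q n : ℝ) ≤ Real.exp t ^ n * aq Q α n := by
    have h4 : Real.exp t ^ n * Real.exp (-t) ^ n = 1 := by
      rw [← mul_pow, ← Real.exp_add]
      simp
    calc (KN.a Q n : ℝ) = (Real.exp t ^ n * Real.exp (-t) ^ n) * (KN.a Q n : ℝ) := by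
          rw [h4, one_mul]
      _ = Real.exp t ^ n * (Real.exp (-t) ^ n * (KN.a Q n : ℝ)) := by ring
      _ ≤ _ := mul_le_mul_of_nonneg_left h1 (by positivity)
  unfold pq pw3
  rw [← mul_div_assoc, ← mul_div_assoc]
  exact ⟨div_le_div_of_nonneg_right h3 (by positivity),
    div_le_div_of_nonneg_right h2 (by positivity)⟩

/-- the roots -/
def rt (p : ℕ → ℝ) (j : ℕ) : ℝ := (p (2 * j)) ^ (1 / (2 * j : ℝ))

theorem rt_le {p p' : ℕ → ℝ} (hp : ∀ n, 0 ≤ p n) (hp' : ∀ n, 0 ≤ p' n) {j : ℕ} (hj : 1 ≤ j)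
    (h : p (2 * j) ≤ Real.exp t ^ (2 * j) * p' (2 * j)) : rt p j ≤ Real.exp t * rt p' j := by
  unfold rt
  have e : (1 : ℝ) / (2 * j) = (((2 * j : ℕ) : ℝ))⁻¹ := by
    push_cast
    rw [one_div]
  calc (p (2 * j)) ^ (1 / (2 * j : ℝ)) ≤ (Real.exp t ^ (2 * j) * p' (2 * j)) ^ (1 / (2 * j : ℝ)) :=
        Real.rpow_le_rpow (hp _) h (by positivity)
    _ = _ := by
        rw [Real.mul_rpow (by positivity) (hp' _), e,
          Real.pow_rpow_inv_natCast (Real.exp_pos _).le (by omega)]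

/-- the growth rate -/
def gw (Q : List Dir → Prop) (α : Fin 3 → ℝ) : ℝ := limsup (rt (pw3 Q α)) atTop

theorem gw_bd (ha : ∀ j, Real.exp (-t) ≤ α j ∧ α j ≤ Real.exp t) :
    IsBoundedUnder (· ≤ ·) atTop (rt (pw3 Q α)) ∧
    gr Q ≤ Real.exp t * gw Q α ∧ gw Q α ≤ Real.exp t * gr Q := by
  have hv : IsBoundedUnder (· ≤ ·) atTop (rt (pq Q)) := GEN.bdd_above S_five_proof Q
  have h0 : ∀ n, 0 ≤ pw3 Q α n := fun n => pw3_nonneg ha n
  have h1 : ∀ᶠ j in atTop, rt (pw3 Q α) j ≤ Real.exp t * rt (pq Q) j := by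
    filter_upwards [eventually_ge_atTop 1] with j hj
    exact rt_le h0 (GEN.pn_nonneg Q) hj (pw3_bd ha (2 * j)).2
  have h2 : ∀ᶠ j in atTop, rt (pq Q) j ≤ Real.exp t * rt (pw3 Q α) j := by
    filter_upwards [eventually_ge_atTop 1] with j hj
    exact rt_le (GEN.pn_nonneg Q) h0 hj (pw3_bd ha (2 * j)).1
  have hb : IsBoundedUnder (· ≤ ·) atTop (rt (pw3 Q α)) := by
    obtain ⟨B, hB⟩ := hv
    rw [eventually_map] at hB
    refine ⟨Real.exp t * B, ?_⟩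
    rw [eventually_map]
    filter_upwards [h1, hB] with j h3 h4
    exact h3.trans (mul_le_mul_of_nonneg_left h4 (Real.exp_pos _).le)
  refine ⟨hb, ?_, ?_⟩
  · exact ls_le (Real.exp_pos t) (fun j => GEN.pn_root_nonneg Q j) hb h2
  · exact ls_le (Real.exp_pos t) (fun j => Real.rpow_nonneg (h0 _) _) hv h1

theorem pw3_odd (α : Fin 3 → ℝ) {n : ℕ} (hn : n % 2 = 1) : pw3 Q α n = 0 := by
  unfold pw3 aq
  have := a_odd Q hn
  unfold KN.a at this
  rw [card_eq_zero] at this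
  rw [this, sum_empty, zero_div]

theorem sumw (ha : ∀ j, Real.exp (-t) ≤ α j ∧ α j ≤ Real.exp t) (h0 : 0 < gw Q α) (x : ℝ)
    (hx0 : 0 ≤ x) (hx : gw Q α * x < 1) : Summable (fun n => pw3 Q α n * x ^ n) := by
  obtain ⟨hb, -, -⟩ := gw_bd (Q := Q) ha
  obtain ⟨r, hr1, hr2⟩ : ∃ r, gw Q α < r ∧ r * x < 1 := by
    rcases hx0.eq_or_lt with rfl | hx0
    · exact ⟨gw Q α + 1, by linarith, by simp⟩
    · have h1 : gw Q α < 1 / x := by rw [lt_div_iff₀ hx0]; exact hx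
      obtain ⟨r, h2, h3⟩ := exists_between h1
      exact ⟨r, h2, by rwa [lt_div_iff₀ hx0] at h3⟩
  have hr0 : 0 < r := h0.trans hr1
  have h1 := eventually_lt_of_limsup_lt hr1 hb
  obtain ⟨J, hJ⟩ := eventually_atTop.1 h1
  refine (summable_geometric_of_lt_one (by positivity) hr2).of_norm_bounded_eventually_nat ?_
  filter_upwards [eventually_ge_atTop (2 * J + 2)] with n hn
  rw [Real.norm_of_nonneg (mul_nonneg (pw3_nonneg ha n) (by positivity)), mul_pow]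
  refine mul_le_mul_of_nonneg_right ?_ (by positivity)
  rcases Nat.even_or_odd n with ⟨j, hj⟩ | hodd
  · have e : n = 2 * j := by omega
    subst e
    have h2 := hJ j (by omega)
    have h3 := pow_le_pow_left₀ (Real.rpow_nonneg (pw3_nonneg (Q := Q) ha (2 * j)) _) h2.le (2 * j)
    have e : (1 : ℝ) / (2 * j) = (((2 * j : ℕ) : ℝ))⁻¹ := by
      push_cast
      rw [one_div]
    unfold rt at h3
    rwa [e, Real.rpow_inv_natCast_pow (pw3_nonneg ha _) (by omega)] at h3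
  · rw [pw3_odd α (Nat.odd_iff.1 hodd)]
    positivity

theorem knots (hQ : KClass Q) (hne : ∃ w, SAP w ∧ Q w) :
    ∃ h₀ : ℝ, 0 < h₀ ∧ ∃ κ : ℝ, 1 < κ ∧ ∃ c : ℝ, 0 < c ∧ c ≤ 1 / 4 ∧ ∃ C : ℝ,
    (∀ α : Fin 3 → ℝ, (∀ j, Real.exp (-h₀) ≤ α j ∧ α j ≤ Real.exp h₀) →
      gr Q / κ ≤ gw Q α ∧ gw Q α ≤ κ * gr Q ∧
      ∀ x : ℝ, 0 ≤ x → gw Q α * x < 1 → Summable (fun n => pw3 Q α n * x ^ n)) ∧
    ∀ ν : ℝ, gr Q / κ ≤ ν → ν ≤ κ * gr Q → 1 ≤ ν ∧ ∀ α : Fin 3 → ℝ,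
      (∀ j, Real.exp (-h₀) ≤ α j ∧ α j ≤ Real.exp h₀) →
      (∀ x : ℝ, 0 ≤ x → ν * x < 1 → Summable (fun n => pw3 Q α n * x ^ n)) →
      ∃ F : ℂ → ℂ, DifferentiableOn ℂ F (Om c ν 2) ∧
        (∀ z : ℂ, ν * ‖z‖ < 1 → HasSum (fun n => (pw3 Q α n : ℂ) * z ^ n) (F z)) ∧
        ∀ z ∈ Om c ν 2, z ≠ 0 → cs 2 z < 1 →
          ‖deriv F z‖ ≤ C + ‖deriv F (xx c ν 2 z : ℂ)‖ := by
  obtain ⟨κ, hκ1, hκ2, c, hc, hc4, C, hC, h⟩ := knotw hQ hne
  have hlog : 0 < Real.log κ := Real.log_pos hκ1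
  have hκ0 : 0 < κ := by linarith
  obtain ⟨g1, -, g2⟩ := gr_bounds Q hQ hne
  have e1 : Real.exp (Real.log κ / 2) ≤ κ := by
    calc Real.exp (Real.log κ / 2) ≤ Real.exp (Real.log κ) := Real.exp_le_exp.2 (by linarith)
      _ = κ := Real.exp_log hκ0
  refine ⟨Real.log κ / 2, by positivity, κ, hκ1, c, hc, hc4, C, fun α ha => ?_,
    fun ν hν1 hν2 => ?_⟩
  · obtain ⟨-, b1, b2⟩ := gw_bd (Q := Q) ha
    have e2 := Real.exp_pos (Real.log κ / 2)
    have h0 : 0 < gw Q α := by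
      by_contra h3
      have : Real.exp (Real.log κ / 2) * gw Q α ≤ 0 := mul_nonpos_of_nonneg_of_nonpos e2.le
        (not_lt.1 h3)
      linarith
    refine ⟨?_, ?_, fun x => sumw ha h0 x⟩
    · rw [div_le_iff₀ hκ0, mul_comm]
      exact b1.trans (mul_le_mul_of_nonneg_right e1 h0.le)
    · exact b2.trans (mul_le_mul_of_nonneg_right e1 (by linarith))
  · have hν3 : gr Q ≤ κ * ν := by
      rw [div_le_iff₀ hκ0] at hν1
      linarith
    have hν : 1 ≤ ν := by nlinarith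
    exact ⟨hν, fun α ha hS => h ν hν hν3 hν2 (Real.log κ / 2) (by positivity)
      (by rw [mul_div_cancel₀ _ two_ne_zero, Real.exp_log hκ0]) α ha hS⟩

end

end Run7.h106.AX
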