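import Pool.Agent.Run7.h106.AX.Three
import Pool.Agent.Run7.h106.AX.Fek
import Pool.Agent.Run7.h106.AH.Force

/-!
# Walks on `ℤ³` weighted by their steps: analytic continuation relative to the own radius
-/

set_option autoImplicit false
set_option linter.unusedVariables false

namespace Run7.h106.AX

open Finset Filter Topology Pool.Agent.N929.EG Pool.Agent.N929.AC
open KN TH966.KO TH966.KO.BR
open scoped Classical

noncomputable section

theorem E_norm (d : Dir) : ∑ j, |E (vec d) j| = 1 := by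
  cases d <;> simp [E, vec, Fin.sum_univ_three]

theorem steps : ∃ h₀ : ℝ, 0 < h₀ ∧ ∃ κ : ℝ, 1 < κ ∧ ∃ c : ℝ, 0 < c ∧ c ≤ 1 / 4 ∧ ∃ C : ℝ,
    (∀ ν : ℝ, μ / κ ≤ ν → ν ≤ κ * μ → 1 ≤ ν ∧ ∀ a g : (Fin 3 → ℤ) → ℝ,
      (∀ x : Fin 3 → ℤ, ∑ j, |x j| = 1 → Real.exp (-h₀) ≤ a x ∧ a x ≤ Real.exp h₀) →
      (∀ x, 0 ≤ g x ∧ g x ≤ Real.exp (h₀ * ∑ j, |(x j : ℝ)|)) →
      (∀ x : ℝ, 0 ≤ x → ν * x < 1 → Summable (fun n => sw 3 a g n * x ^ n)) →
      ∃ f : ℂ → ℂ, DifferentiableOn ℂ f (Om c ν 2) ∧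
        (∀ z : ℂ, ν * ‖z‖ < 1 → HasSum (fun n => (sw 3 a g n : ℂ) * z ^ n) (f z)) ∧
        ∀ z ∈ Om c ν 2, z ≠ 0 → cs 2 z < 1 →
          ‖f z‖ ≤ C + ‖f (xx c ν 2 z : ℂ)‖) ∧
    ∀ a : (Fin 3 → ℤ) → ℝ,
      (∀ x : Fin 3 → ℤ, ∑ j, |x j| = 1 → Real.exp (-h₀) ≤ a x ∧ a x ≤ Real.exp h₀) →
      ∃ ν : ℝ, μ / κ ≤ ν ∧ ν ≤ κ * μ ∧
        Tendsto (fun n : ℕ => ZW 3 a n ^ (1 / (n : ℝ))) atTop (𝓝 ν) ∧
        ∀ x : ℝ, 0 ≤ x → ν * x < 1 → Summable (fun n => ZW 3 a n * x ^ n) := by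
  obtain ⟨κ, hκ1, hκ2, c, hc, hc4, C, hC, h⟩ := aw3
  have hlog : 0 < Real.log κ := Real.log_pos hκ1
  have hκ0 : 0 < κ := by linarith
  have hμ := AH.ge3
  refine ⟨Real.log κ / 2, by positivity, κ, hκ1, c, hc, hc4, C, fun ν hν1 hν2 => ?_,
    fun a ha => ?_⟩
  · have hν3 : μ ≤ κ * ν := by
      rw [div_le_iff₀ hκ0] at hν1
      linarith
    have hν : 1 ≤ ν := by nlinarith
    refine ⟨hν, fun a g ha hg hS => ?_⟩
    obtain ⟨f, f1, f2, f3⟩ := h ν hν hν3 hν2 (Real.log κ / 2) (by positivity)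
      (by rw [mul_div_cancel₀ _ two_ne_zero, Real.exp_log hκ0]) a g
      (fun d => ha _ (E_norm d)) (fun x => (hg x).1)
      (fun n x hx => by
        refine (hg x).2.trans ?_
        rw [← Real.exp_nat_mul]
        refine Real.exp_le_exp.2 ?_
        have h1 : ∑ j, |(x j : ℝ)| ≤ n := by exact_mod_cast hx
        calc Real.log κ / 2 * ∑ j, |(x j : ℝ)| ≤ Real.log κ / 2 * n :=
              mul_le_mul_of_nonneg_left h1 (by positivity)
          _ = _ := mul_comm _ _) hS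
    refine ⟨f, f1, f2, fun z hz hz0 hz1 => ?_⟩
    obtain ⟨-, h2⟩ := f3 z hz hz0 hz1
    have habs := abs_le.1 (Run7.h106.AC.cs_abs 2 z)
    have hν0 : 0 < ν := by linarith
    have hx : ν * xx c ν 2 z = 1 - c * (1 - cs 2 z) := by
      unfold xx
      field_simp
    have hx0 : 0 < xx c ν 2 z := by
      unfold xx
      refine div_pos ?_ hν0
      nlinarith
    have h4 := f2 (xx c ν 2 z : ℂ) (by
      rw [Complex.norm_real, Real.norm_of_nonneg hx0.le, hx]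
      nlinarith)
    have h5 : f (xx c ν 2 z : ℂ) = ((∑' n, sw 3 a g n * xx c ν 2 z ^ n : ℝ) : ℂ) := by
      rw [← h4.tsum_eq, Complex.ofReal_tsum]
      refine tsum_congr fun n => ?_
      push_cast
      rfl
    have h6 : ‖f (xx c ν 2 z : ℂ)‖ = ∑' n, sw 3 a g n * xx c ν 2 z ^ n := by
      rw [h5, Complex.norm_real, Real.norm_of_nonneg]
      refine tsum_nonneg fun n => mul_nonneg ?_ (pow_nonneg hx0.le n)
      refine finsum_nonneg fun ω => finsum_nonneg fun hω => mul_nonneg (hg _).1 ?_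
      exact Finset.prod_nonneg fun i _ => (Real.exp_pos _).le.trans (ha _ (hω.2.1 i)).1
    rw [h6]
    exact h2
  · obtain ⟨ν, hν0, hν1, hν2, hν3, hν4⟩ := fekW ha AH.pos3 AH.lim3
    have e1 : Real.exp (Real.log κ / 2) ≤ κ := by
      calc Real.exp (Real.log κ / 2) ≤ Real.exp (Real.log κ) := Real.exp_le_exp.2 (by linarith)
        _ = κ := Real.exp_log hκ0
    refine ⟨ν, ?_, ?_, hν1, hν4⟩
    · refine le_trans ?_ hν2
      rw [div_eq_mul_inv, Real.exp_neg]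
      exact mul_le_mul_of_nonneg_left (inv_anti₀ (Real.exp_pos _) e1) (by linarith)
    · refine hν3.trans ?_
      rw [mul_comm κ]
      exact mul_le_mul_of_nonneg_left e1 (by linarith)

end

end Run7.h106.AX
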