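import Pool.Agent.Run7.h106.AX.Asm
import Pool.Agent.Run7.h106.AH.Fek
import Pool.Agent.N929.AC.Three

/-!
# Walks on `ℤ³` weighted by their steps
-/

set_option autoImplicit false
set_option linter.unusedVariables false

namespace Run7.h106.AX

open Finset Filter Topology Pool.Agent.N929.EG Pool.Agent.N929.AC
open KN TH966.KO TH966.KO.BR
open scoped Classical

noncomputable section

theorem sys3w (hcnt : S_CNT3) : ∃ Y : TS (List Z3) (List Z3 × List Z3), Sys3 Y ∧
    (∀ w q, q ∈ Y.S w → T3 q.1 q.2 ∧ Pair A3 q.1 q.2 ∧ Free q.1 q.2 w) ∧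
    (∀ w q, Y.ins w q = rep w q.1 q.2) ∧ ∀ n, ∀ w ∈ Y.K n, Walk 0 A3 w := by
  obtain ⟨X, Z, hX, hs, hT⟩ := Pool.Agent.N953.EG.geo3
  obtain ⟨Y, h1, h2, h3, h4, h5, h6⟩ := s_win Z3 X A3 Z
  have hK : ∀ n w, w ∈ Y.K n ↔ ∃ u ∈ SS n, w = (path u).reverse := by
    intro n w
    rw [h3, hX]
    exact Pool.Agent.N558.EG.wk3 n w
  refine ⟨Y, ⟨h1.trans hs, hK, ?_, ?_⟩, fun w q hq => ?_, h6, fun n w hw => ?_⟩
  · intro n w hw q hq
    rw [h3, hX] at hw
    rw [h4] at hq
    have := last_rep (U := q.1) (U' := q.2) (Z.pair _ _ hq.1) hw.2 hq.2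
    rw [h6]
    unfold e3
    rw [this]
  · obtain ⟨K, K₁, hK0, hK₁, hup⟩ := up3
    have hcard : ∀ n, ((Y.K n).card : ℝ) = c n := by
      intro n
      have : Y.K n = (SS n).image (fun u => (path u).reverse) := by
        ext w
        rw [hK, mem_image]
        constructor
        · rintro ⟨u, hu, rfl⟩; exact ⟨u, hu, rfl⟩
        · rintro ⟨u, hu, rfl⟩; exact ⟨u, hu, rfl⟩
      rw [this, card_image_of_injective _ (fun u v h => path_inj u v (List.reverse_injective h)),
        card_SS]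
    refine ⟨K, K₁, hK0, hK₁, ⟨mu_one, phi3 K K₁ hK0 hK₁, ?_, ?_⟩⟩
    · intro n m hn hm
      rw [hcard]
      exact hup n m hn hm
    · -- the pattern theorem
      have hinv : TH966.KO.Inv (fun _ => True) := fun w _ i d _ => Iff.rfl
      obtain ⟨θ, C, hθ0, hθ1, hbad⟩ := o_pattern (fun _ => True) hinv μ (by linarith [mu_ge]) mu_le
        (fun τ hτ => by
          obtain ⟨C, _, hC⟩ := growth τ hτ
          refine ⟨C, fun n => le_trans ?_ (hC n)⟩
          exact_mod_cast a_le n)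
      have hμ : 0 < μ := by linarith [mu_one]
      have hθμ : 0 < θ * μ := mul_pos hθ0 hμ
      obtain ⟨C', hC'⟩ : ∃ C' : ℝ, C' = |C| + ∑ m ∈ range 4, (c m : ℝ) / (θ * μ) ^ m := ⟨_, rfl⟩
      have hsum0 : 0 ≤ ∑ m ∈ range 4, (c m : ℝ) / (θ * μ) ^ m :=
        sum_nonneg fun m _ => by positivity
      refine ⟨10 ^ 7, θ, C', by norm_num, hθ0, hθ1, ?_, fun n => ?_⟩
      · rw [hC']
        positivity
      · rcases Nat.lt_or_ge n 4 with hn | hn
        · have e1 : ((Pool.Agent.N929.EG.bad Y (10 ^ 7) n).card : ℝ) ≤ c n := by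
            rw [← hcard]
            exact_mod_cast card_filter_le _ _
          have e2 : (c n : ℝ) / (θ * μ) ^ n ≤ ∑ m ∈ range 4, (c m : ℝ) / (θ * μ) ^ m :=
            single_le_sum (f := fun m => (c m : ℝ) / (θ * μ) ^ m)
              (fun m _ => by positivity) (mem_range.2 hn)
          have e3 : (c n : ℝ) / (θ * μ) ^ n ≤ C' := by
            rw [hC']
            linarith [abs_nonneg C]
          rw [div_le_iff₀ (by positivity)] at e3
          linarith
        · have e1 : ((Pool.Agent.N929.EG.bad Y (10 ^ 7) n).card : ℝ) ≤ TH966.KO.bad (fun _ => True) n := by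
            unfold TH966.KO.bad
            have e2 : Pool.Agent.N929.EG.bad Y (10 ^ 7) n ⊆ ((TH966.KO.K (fun _ => True) n).filter
                (fun w => 10 ^ 7 * fr w ≤ n ∨ 10 ^ 7 * bu w ≤ n)).image
                (fun u => (path u).reverse) := by
              intro w hw
              unfold Pool.Agent.N929.EG.bad at hw
              rw [mem_filter, hK] at hw
              obtain ⟨⟨u, hu, rfl⟩, hw2⟩ := hw
              rw [mem_image]
              refine ⟨u, ?_, rfl⟩
              obtain ⟨hl, hsaw⟩ := mem_SS.1 hu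
              rw [mem_filter, TH966.KO.mem_K]
              refine ⟨⟨hl, ⟨by omega, hsaw⟩, trivial⟩, ?_⟩
              rcases hw2 with hw2 | hw2
              · left
                have e4 := (hcnt n u hu (Y.S (path u).reverse)).1 (fun q => by rw [h4, hT])
                have := Nat.mul_le_mul_left (10 ^ 7) e4
                omega
              · right
                have e4 := (hcnt n u hu (Y.B (path u).reverse)).2 (fun q => by rw [h5, hT])
                have := Nat.mul_le_mul_left (10 ^ 7) e4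
                omega
            exact_mod_cast (card_le_card e2).trans card_image_le
          refine e1.trans ((hbad n).trans ?_)
          have e5 : C ≤ C' := by
            rw [hC']
            have := le_abs_self C
            linarith
          exact mul_le_mul_of_nonneg_right e5 (by positivity)
  · rw [h4] at hq
    exact ⟨by rw [← hT]; exact hq.1, Z.pair _ _ hq.1, hq.2⟩
  · rw [h3, hX] at hw
    exact hw.2

/-- the weight of a list of points: the product of the weights of its steps -/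
def Wl (a : Z3 → ℝ) : List Z3 → ℝ
  | [] => 1
  | [_] => 1
  | p :: q :: l => a (q - p) * Wl a (q :: l)

theorem Wl_app (a : Z3 → ℝ) (L : List Z3) (p : Z3) (R : List Z3) :
    Wl a (L ++ p :: R) = Wl a (L ++ [p]) * Wl a (p :: R) := by
  induction L with
  | nil => simp [Wl]
  | cons x L ih =>
    cases L with
    | nil =>
      simp only [List.cons_append, List.nil_append, Wl]
      ring
    | cons y L =>
      simp only [List.cons_append] at ih ⊢
      rw [Wl, Wl, ih]
      ring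

theorem Wl_win (a : Z3 → ℝ) (L R X : List Z3) (p r : Z3) :
    Wl a (L ++ (p :: (X ++ [r])) ++ R) =
      Wl a (L ++ [p]) * (Wl a (p :: (X ++ [r])) * Wl a (r :: R)) := by
  have e : L ++ (p :: (X ++ [r])) ++ R = L ++ p :: (X ++ r :: R) := by simp
  rw [e, Wl_app]
  congr 1
  have e2 : p :: (X ++ r :: R) = (p :: X) ++ r :: R := by simp
  rw [e2, Wl_app]
  simp

theorem Wl_pos {a : Z3 → ℝ} (ha : ∀ d, 0 < a (vec d)) : ∀ w : List Z3, w.IsChain A3 → 0 < Wl a w
  | [], _ => one_pos
  | [_], _ => one_pos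
  | p :: q :: l, h => by
    rw [List.isChain_cons_cons] at h
    obtain ⟨⟨d, rfl⟩, h2⟩ := h
    rw [Wl, add_sub_cancel_left]
    exact mul_pos (ha d) (Wl_pos ha _ h2)

theorem vec_neg (d : Dir) : -vec d = vec (neg d) := by cases d <;> decide

/-- the factor of a place -/
def sq (a : Z3 → ℝ) (q : List Z3 × List Z3) : ℝ :=
  if T3 q.1 q.2 then Wl a q.2 / Wl a q.1 else 1

theorem sq_bd {a : Z3 → ℝ} {h : ℝ} (ha : ∀ d, Real.exp (-h) ≤ a (vec d) ∧ a (vec d) ≤ Real.exp h)
    (hh : Real.exp (2 * h) ≤ 2) (q : List Z3 × List Z3) : 1 / 2 ≤ sq a q ∧ sq a q ≤ 2 := by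
  unfold sq
  split_ifs with hT
  · obtain ⟨p, d, e, -, h1, h2⟩ := hT
    have h0 : ∀ d, 0 < a (vec d) := fun d => (Real.exp_pos _).trans_le (ha d).1
    have e1 : Wl a q.1 = a (vec e) := by
      rw [h1]
      simp [Wl]
    have e2 : Wl a q.2 = a (vec d) * (a (vec e) * a (vec (neg d))) := by
      rw [h2]
      simp only [Wl, add_sub_cancel_left, mul_one]
      have : p + vec e - (p + vec d + vec e) = vec (neg d) := by
        rw [← vec_neg]
        abel
      rw [this]
    have e3 : Wl a q.2 / Wl a q.1 = a (vec d) * a (vec (neg d)) := by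
      rw [e1, e2, div_eq_iff (h0 e).ne']
      ring
    rw [e3]
    have e4 : Real.exp (2 * h) = Real.exp h * Real.exp h := by
      rw [two_mul, Real.exp_add]
    have e5 : Real.exp (-h) * Real.exp h = 1 := by
      rw [← Real.exp_add]
      simp
    have p1 := Real.exp_pos (-h)
    have p2 := Real.exp_pos h
    constructor
    · have h3 : Real.exp (-h) * Real.exp (-h) ≤ a (vec d) * a (vec (neg d)) :=
        mul_le_mul (ha d).1 (ha _).1 p1.le (h0 d).le
      have h4 : (Real.exp (-h) * Real.exp (-h)) * Real.exp (2 * h) = 1 := by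
        rw [e4]
        calc (Real.exp (-h) * Real.exp (-h)) * (Real.exp h * Real.exp h)
            = (Real.exp (-h) * Real.exp h) * (Real.exp (-h) * Real.exp h) := by ring
          _ = 1 := by rw [e5, one_mul]
      have h5 : 0 < Real.exp (-h) * Real.exp (-h) := by positivity
      nlinarith
    · have h3 : a (vec d) * a (vec (neg d)) ≤ Real.exp h * Real.exp h :=
        mul_le_mul (ha d).2 (ha _).2 (h0 _).le p2.le
      linarith
  · constructor <;> norm_num

theorem mu3 {Y : TS (List Z3) (List Z3 × List Z3)} (H : Sys3 Y)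
    (hS : ∀ w q, q ∈ Y.S w → T3 q.1 q.2 ∧ Pair A3 q.1 q.2 ∧ Free q.1 q.2 w)
    (hi : ∀ w q, Y.ins w q = rep w q.1 q.2) (hK : ∀ n, ∀ w ∈ Y.K n, Walk 0 A3 w)
    (g : (Fin 3 → ℤ) → ℝ) {a : Z3 → ℝ} {h : ℝ}
    (ha : ∀ d, Real.exp (-h) ≤ a (vec d) ∧ a (vec d) ≤ Real.exp h)
    (hh : Real.exp (2 * h) ≤ 2) : Mu Y (fun w => g (E (e3 w)) * Wl a w) (sq a) := by
  refine ⟨sq_bd ha hh, fun n w hw q hq => ?_⟩
  obtain ⟨h1, h2, h3⟩ := hS w q hq
  have h0 : ∀ d, 0 < a (vec d) := fun d => (Real.exp_pos _).trans_le (ha d).1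
  have e : Wl a (Y.ins w q) = Wl a w * sq a q := by
    rw [hi]
    obtain ⟨L, R, e1, e2, -, -, -⟩ := rep_all h2 (hK n w hw) h3
    have hq1 : 0 < Wl a q.1 := Wl_pos h0 _ h2.2.2.2.1
    unfold sq
    rw [if_pos h1, e2]
    obtain ⟨⟨p, r, X, X', e3, e4, -, -⟩, -⟩ := h2
    have e5 : Wl a w = Wl a (L ++ [p]) * (Wl a q.1 * Wl a (r :: R)) := by
      rw [e1, e3]
      exact Wl_win a L R X p r
    have e6 : Wl a (L ++ q.2 ++ R) = Wl a (L ++ [p]) * (Wl a q.2 * Wl a (r :: R)) := by
      rw [e4]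
      exact Wl_win a L R X' p r
    rw [e5, e6]
    field_simp
  show g (E (e3 (Y.ins w q))) * Wl a (Y.ins w q) = g (E (e3 w)) * Wl a w * sq a q
  rw [H.e3 n w hw q hq, e]
  ring

theorem Wl_path (a : Z3 → ℝ) (u : List Dir) :
    Wl a (path u).reverse = (u.map (fun d => a (vec d))).prod := by
  induction u with
  | nil => simp [path, Wl]
  | cons d u ih =>
    obtain ⟨l, hl⟩ := Pool.Agent.N558.EG.path_head u
    rw [hl, List.reverse_cons] at ih
    rw [path, hl, List.reverse_cons, List.reverse_cons, List.append_assoc]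
    show Wl a (l.reverse ++ pos u :: [pos u + vec d]) = _
    rw [Wl_app, ih, List.map_cons, List.prod_cons]
    simp only [Wl, add_sub_cancel_left, mul_one]
    ring

theorem prod_list {l : List ℝ} {n : ℕ} (hl : l.length = n) :
    ∏ i : Fin n, l[i.1]'(by have := i.2; omega) = l.prod := by
  subst hl
  exact Fin.prod_univ_getElem l

theorem prod_wk {n : ℕ} {u : List Dir} (hu : u.length = n) (a : (Fin 3 → ℤ) → ℝ) :
    ∏ i : Fin n, a (wk n u i.succ - wk n u i.castSucc) = (u.map (fun d => a (E (vec d)))).prod := by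
  have hl : ((T u).map (fun t => a (Pool.Agent.H46R2.K3.vec t))).length = n := by
    rw [List.length_map, T_length, hu]
  have e1 : ((T u).map (fun t => a (Pool.Agent.H46R2.K3.vec t))).prod =
      (u.map (fun d => a (E (vec d)))).prod := by
    unfold T
    rw [List.map_reverse, List.prod_reverse, List.map_map]
    congr 1
    refine List.map_congr_left fun d _ => ?_
    show a (Pool.Agent.H46R2.K3.vec (φ d)) = _
    rw [E_vec]
  rw [← e1, ← prod_list hl]
  refine Finset.prod_congr rfl fun i _ => ?_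
  rw [List.getElem_map]
  congr 1
  have hT : (T u).length = n := by rw [T_length, hu]
  have h2 := Pool.Agent.H46R2.K3.P.eq_pos_succ (w := T u) (k := i) (by omega)
  unfold wk
  rw [Fin.val_succ, Fin.val_castSucc, h2]
  simp

/-- the bound for the weight of a walk -/
theorem Wl_le {a : Z3 → ℝ} {b : ℝ} (ha : ∀ d, 0 ≤ a (vec d) ∧ a (vec d) ≤ b) (u : List Dir) :
    0 ≤ (u.map (fun d => a (vec d))).prod ∧ (u.map (fun d => a (vec d))).prod ≤ b ^ u.length := by
  induction u with
  | nil => simp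
  | cons d u ih =>
    rw [List.map_cons, List.prod_cons, List.length_cons, pow_succ]
    refine ⟨mul_nonneg (ha d).1 ih.1, ?_⟩
    rw [mul_comm]
    exact mul_le_mul ih.2 (ha d).2 (ha d).1 (pow_nonneg ((ha d).1.trans (ha d).2) _)

/-- the weighted sums over the walks -/
def sw (d : ℕ) (a g : (Fin d → ℤ) → ℝ) (n : ℕ) : ℝ :=
  ∑ᶠ ω ∈ {ω | AH.IsW d n ω}, g (ω (Fin.last n)) * ∏ i : Fin n, a (ω i.succ - ω i.castSucc)

theorem sum_wk (n : ℕ) (Φ : (Fin (n + 1) → Fin 3 → ℤ) → ℝ) :
    ∑ᶠ ω ∈ {ω | AH.IsW 3 n ω}, Φ ω = ∑ u ∈ SS n, Φ (wk n u) := by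
  show ∑ᶠ ω ∈ {ω | IsSAW n ω}, Φ ω = _
  rw [← finsum_mem_eq_of_bijOn (f := fun w => Φ (wk n w)) (wk n) (bij n) (fun _ _ => rfl),
    finsum_mem_coe_finset]

theorem aw3 : ∃ κ : ℝ, 1 < κ ∧ κ ≤ 2 ∧ ∃ c : ℝ, 0 < c ∧ c ≤ 1 / 4 ∧ ∃ C : ℝ, 0 < C ∧
    ∀ ν : ℝ, 1 ≤ ν → μ ≤ κ * ν → ν ≤ κ * μ → ∀ h : ℝ, 0 ≤ h → Real.exp (2 * h) ≤ κ →
      ∀ a g : (Fin 3 → ℤ) → ℝ,
      (∀ d, Real.exp (-h) ≤ a (E (vec d)) ∧ a (E (vec d)) ≤ Real.exp h) →
      (∀ x, 0 ≤ g x) → (∀ (n : ℕ) (x : Fin 3 → ℤ), ∑ j, |x j| ≤ n → g x ≤ Real.exp h ^ n) →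
      (∀ x : ℝ, 0 ≤ x → ν * x < 1 → Summable (fun n => sw 3 a g n * x ^ n)) →
      ∃ f : ℂ → ℂ, DifferentiableOn ℂ f (Om c ν 2) ∧
        (∀ z : ℂ, ν * ‖z‖ < 1 → HasSum (fun n => (sw 3 a g n : ℂ) * z ^ n) (f z)) ∧
        ∀ z ∈ Om c ν 2, z ≠ 0 → cs 2 z < 1 →
          Summable (fun n => sw 3 a g n * xx c ν 2 z ^ n) ∧
          ‖f z‖ ≤ C + ∑' n, sw 3 a g n * xx c ν 2 z ^ n := by
  obtain ⟨Y, H, hS, hi, hK⟩ := sys3w Pool.Agent.N546.EG.cnt3
  obtain ⟨K, K₁, hK0, hK₁, G⟩ := H.gr
  obtain ⟨κ, hκ1, hκ2, c, hc, hc4, h⟩ := acM Y H.s G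
  obtain ⟨C, hC, h'⟩ := h 1 zero_le_one
  refine ⟨κ, hκ1, hκ2, c, hc, hc4, C, hC,
    fun ν hν hν1 hν2 t ht ht2 a g ha hg hg2 hsum => ?_⟩
  have e : ∀ n, sw 3 a g n = aa Y (fun w => g (E (e3 w)) * Wl (fun p => a (E p)) w) n := by
    intro n
    unfold aa sw
    rw [sum_Y H, sum_wk]
    refine Finset.sum_congr rfl fun u hu => ?_
    have hl := (mem_SS.1 hu).1
    rw [e3_path, Wl_path, prod_wk hl, wk_last hl]
  obtain ⟨f, h1, h2, h3⟩ := h' ν hν hν1 hν2 κ (by linarith) le_rfl
    (fun w => g (E (e3 w)) * Wl (fun p => a (E p)) w) (sq fun p => a (E p))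
    (fun n w hw => by
      obtain ⟨u, hu, rfl⟩ := (H.K n w).1 hw
      have hl := (mem_SS.1 hu).1
      obtain ⟨b1, b2⟩ := Wl_le (a := fun p => a (E p)) (b := Real.exp t)
        (fun d => ⟨(Real.exp_pos _).le.trans (ha d).1, (ha d).2⟩) u
      simp only [e3_path, Wl_path]
      refine ⟨mul_nonneg (hg _) b1, ?_⟩
      have h4 := (bij n).mapsTo (Finset.mem_coe.2 hu)
      have h5 : AH.IsW 3 n (wk n u) := h4
      have h6 : ∑ j, |E (pos u) j| ≤ n := by
        rw [← wk_last hl]
        have : ∀ (i : ℕ) (hi : i < n + 1), ∑ j, |wk n u ⟨i, hi⟩ j| ≤ i := by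
          intro i
          induction i with
          | zero =>
            intro hi
            have h7 : wk n u ⟨0, hi⟩ = 0 := h5.1
            rw [h7]
            simp
          | succ i ih =>
            intro hi
            have h8 := h5.step i (by omega)
            have h9 := ih (by omega)
            calc ∑ j, |wk n u ⟨i + 1, hi⟩ j|
                ≤ ∑ j, (|wk n u ⟨i + 1, hi⟩ j - wk n u ⟨i, by omega⟩ j| +
                  |wk n u ⟨i, by omega⟩ j|) := by
                  refine Finset.sum_le_sum fun j _ => ?_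
                  have := abs_add_le (wk n u ⟨i + 1, hi⟩ j - wk n u ⟨i, by omega⟩ j)
                    (wk n u ⟨i, by omega⟩ j)
                  rwa [sub_add_cancel] at this
              _ = ∑ j, |wk n u ⟨i + 1, hi⟩ j - wk n u ⟨i, by omega⟩ j| +
                  ∑ j, |wk n u ⟨i, by omega⟩ j| := Finset.sum_add_distrib
              _ ≤ 1 + i := by rw [h8]; linarith
              _ = ((i + 1 : ℕ) : ℤ) := by push_cast; ring
        exact this n (by omega)
      have h7 := hg2 n _ h6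
      rw [hl] at b2
      calc g (E (pos u)) * (u.map (fun d => a (E (vec d)))).prod
          ≤ Real.exp t ^ n * Real.exp t ^ n := mul_le_mul h7 b2 b1 (by positivity)
        _ = Real.exp (2 * t) ^ n := by
            rw [← mul_pow, two_mul, Real.exp_add]
        _ ≤ κ ^ n := pow_le_pow_left₀ (Real.exp_pos _).le ht2 n
        _ = 1 * κ ^ n := (one_mul _).symm)
    (mu3 H hS hi hK g (a := fun p => a (E p)) (h := t) ha (ht2.trans hκ2))
    (fun x hx0 hx => by
      simp only [← e]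
      exact hsum x hx0 hx)
  simp only [← e] at h2 h3
  exact ⟨f, h1, h2, h3⟩

end

end Run7.h106.AX
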